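import Mathlib
import Pool.Agent.H376.Singer.Refl

/-!
MP_f86ddb_al, Q1. A Singer cycle of a symplectic group `Sp_{2n}(q)`, or of the orthogonal group of
a nondegenerate quadratic form on a `2n`-dimensional space over the field with `q` elements (in
particular of `O^-_{2n}(q)`), has exactly `(q^n+1)^(2n-1)` factorizations into `2n` reflections.
-/

namespace Pool.Agent.Results.MP_f86ddb_al.SingerFact

set_option linter.all false

open Module Pool.Agent.H376.Singer

universe u v

variable {K : Type u} [Field K] {V : Type v} [AddCommGroup V] [Module K V]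

/-- The group of all invertible linear maps preserving the bilinear form `ω`. -/
def Sp (ω : V →ₗ[K] V →ₗ[K] K) : Subgroup (V ≃ₗ[K] V) where
  carrier := {g | ∀ x y, ω (g x) (g y) = ω x y}
  one_mem' := fun x y => rfl
  mul_mem' := by
    intro a b ha hb x y
    rw [LinearEquiv.mul_apply, LinearEquiv.mul_apply, ha, hb]
  inv_mem' := by
    intro a ha x y
    have h := ha (a⁻¹ x) (a⁻¹ y)
    have h1 : ∀ z, a (a⁻¹ z) = z := fun z => a.apply_symm_apply z
    rw [h1, h1] at h
    exact h.symm

/-- The group of all invertible linear maps preserving the quadratic form `Q`. -/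
def Orth (Q : QuadraticForm K V) : Subgroup (V ≃ₗ[K] V) where
  carrier := {g | ∀ x, Q (g x) = Q x}
  one_mem' := fun x => rfl
  mul_mem' := by
    intro a b ha hb x
    rw [LinearEquiv.mul_apply, ha, hb]
  inv_mem' := by
    intro a ha x
    have h := ha (a⁻¹ x)
    have h1 : ∀ z, a (a⁻¹ z) = z := fun z => a.apply_symm_apply z
    rw [h1] at h
    exact h.symm

/-- A reflection in `G`: an element of `G` other than `1` which fixes some hyperplane pointwise. -/
def IsReflection (G : Subgroup (V ≃ₗ[K] V)) (t : V ≃ₗ[K] V) : Prop :=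
  t ∈ G ∧ t ≠ 1 ∧ ∃ H : Submodule K V, finrank K H + 1 = finrank K V ∧ ∀ x ∈ H, t x = x

/-- An element of `G` of order `h` with no invariant subspaces besides `0` and `V`. -/
def IsSinger (G : Subgroup (V ≃ₗ[K] V)) (h : ℕ) (c : V ≃ₗ[K] V) : Prop :=
  c ∈ G ∧ (∀ W : Submodule K V, (∀ x ∈ W, c x ∈ W) → W = ⊥ ∨ W = ⊤) ∧ orderOf c = h

/-- The number of tuples `(t_1, …, t_N)` of reflections in `G` with `t_1 ⋯ t_N = c`. -/
noncomputable def numFact (G : Subgroup (V ≃ₗ[K] V)) (N : ℕ) (c : V ≃ₗ[K] V) : ℕ :=
  Nat.card {t : Fin N → (V ≃ₗ[K] V) // (∀ i, IsReflection G (t i)) ∧ (List.ofFn t).prod = c}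

/-- **Theorem.** Let `V` be a vector space of dimension `2n`, `n ≥ 1`, over a finite field `K` with
`q` elements. For every nondegenerate alternating form `ω` and every irreducible `c ∈ Sp(ω)` of
order `h = q^n + 1`, the number of factorizations of `c` into `2n` reflections of `Sp(ω)` is
`h^(2n-1)`; the same holds for the orthogonal group of every nondegenerate quadratic form. -/
theorem result (K : Type u) [Field K] [Fintype K] (V : Type v) [AddCommGroup V] [Module K V]
    (n : ℕ) (hn : 1 ≤ n) (hV : finrank K V = 2 * n) :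
    (∀ ω : V →ₗ[K] V →ₗ[K] K, (∀ x, ω x x = 0) → (∀ x, (∀ y, ω x y = 0) → x = 0) →
      ∀ c : V ≃ₗ[K] V, IsSinger (Sp ω) (Fintype.card K ^ n + 1) c →
        numFact (Sp ω) (2 * n) c = (Fintype.card K ^ n + 1) ^ (2 * n - 1)) ∧
    (∀ Q : QuadraticForm K V, (∀ x, (∀ y, QuadraticMap.polar Q x y = 0) → x = 0) →
      ∀ c : V ≃ₗ[K] V, IsSinger (Orth Q) (Fintype.card K ^ n + 1) c →
        numFact (Orth Q) (2 * n) c = (Fintype.card K ^ n + 1) ^ (2 * n - 1)) := by
  haveI : FiniteDimensional K V := Module.finite_of_finrank_pos (by omega)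
  refine ⟨?_, ?_⟩
  · intro ω halt hnd c hc
    obtain ⟨hcG, hirr, hord⟩ := hc
    have hskew : ∀ x y, ω y x = - ω x y := by
      intro x y
      have := halt (x + y)
      rw [map_add, map_add, LinearMap.add_apply, LinearMap.add_apply, halt, halt] at this
      linear_combination this
    have hiso : Iso ω (-1) (c : V →ₗ[K] V) :=
      ⟨fun x y => by rw [hskew]; ring, by ring, hcG, hnd⟩
    exact count_fact hiso hirr (by omega) hV hord {t | IsReflection (Sp ω) t}
      (fun t ht => by
        obtain ⟨h1, h2, H, h3, h4⟩ := ht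
        exact sp_ha halt hnd t h1 h2 H h3 h4)
      (fun R hR v hv => by
        have hv0 : v ≠ 0 := by
          rintro rfl
          simp at hv
        obtain ⟨t, h1, h2, h3, h4⟩ := sp_hb halt hnd hv0 hv
        exact ⟨t, ⟨h2, h3, h4⟩, h1⟩)
  · intro Q hnd' c hc
    obtain ⟨hcG, hirr, hord⟩ := hc
    have hnd : ∀ x, (∀ y, QuadraticMap.polarBilin Q x y = 0) → x = 0 := by
      intro x hx
      exact hnd' x fun y => hx y
    have hcG' : ∀ x, Q ((c : V →ₗ[K] V) x) = Q x := hcG
    have hiso : Iso (QuadraticMap.polarBilin Q) 1 (c : V →ₗ[K] V) := by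
      refine ⟨fun x y => by rw [one_mul, Q_symm], by ring, ?_, hnd⟩
      intro x y
      have h1 := hcG' (x + y)
      rw [map_add, Q_add, Q_add, hcG', hcG'] at h1
      linear_combination h1
    exact count_fact hiso hirr (by omega) hV hord {t | IsReflection (Orth Q) t}
      (fun t ht => by
        obtain ⟨h1, h2, H, h3, h4⟩ := ht
        exact o_ha hnd t h1 h2 H h3 h4)
      (fun R hR v hv => by
        rw [chi_self hcG' hR v] at hv ⊢
        obtain ⟨t, h1, h2, h3, h4⟩ := o_hb hnd hv
        exact ⟨t, ⟨h2, h3, h4⟩, h1⟩)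

end Pool.Agent.Results.MP_f86ddb_al.SingerFact
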